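import Pool.Agent.H29.R2.All2

/-!
# Dilated zeros of Artin L-functions beyond degree one (MP_347b49_nt)

Let `K/ℚ` be a finite Galois extension, `ρ_i` (`i < k`) representations of its Galois group with
characters `χ_i` and dimensions `n_i`, `Λ_i` their Artin `L`-functions, `c_i` integers of any sign,
`τ_i` real numbers, `r > 1` a real number and `a_i = 1` or `a_i = r` for every `i`. Suppose that the
factors of dilation `r` do not cancel: for some `t` the sum of the `c_i χ_i` over all `i` with
`a_i = r` and `τ_i = t` is not `0`. Put `d = ∑ c_i a_i n_i` and suppose `0 < d < 5/2`,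
`3d < 2r + 1`, `6d < 3r + 4`. Then for every `ε > 0` and all large `T` the product
`∏ Λ_i(1/2 + a_i (s - 1/2) + i τ_i) ^ c_i` has at least `T^(min(1, 5 - 2d) - ε)` poles with an
imaginary part in `[T, 2T]`.

Example: let `Λ` and `M` be Artin `L`-functions of degrees `n` and `m`, `a > 1` and `d = an - m`. In
the given range of `d` the map `1/2 + iγ ↦ 1/2 + i(aγ + τ)` does not send the zeros of `M` to zeros of
`Λ` (`γ` complex, with multiplicities): the relation `γ' = aγ + τ` fails for at least
`T^(min(1, 5 - 2d) - ε)` zeros. For `n = m = 1` the range is `1 < a < 10/3`.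

Idea. If the product had few poles, local averages of its functional equation of degree `d` would
give an identity between its Dirichlet series and the dual series. It is tested against Dirichlet
polynomials over primes `p` with the frequencies `r log p`. The Dirichlet series contributes a
diagonal term, by the density theorem for Frobenius elements with the twists `p^(-it)`; the near
coincidences `n l^r = p^r` are counted by the spacing of fractions and by convexity, and the dual
series is a bilinear form, estimated by the second and the third derivative test.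

The theorem is unconditional and holds for all Artin `L`-functions over `ℚ`. The proof contains
Hecke's functional equation for the ray class characters of every number field, Artin's reciprocity
law, Brauer's induction theorem and the non-vanishing of these `L`-functions on the line `Re s = 1`.
Artin's conjecture is not needed. (That the functions `Λ_i` exist as meromorphic functions is Brauer's
theorem; it is proved here too, `EXA_proved` in Pool/Agent/H29/R2/Ray.lean.)

Lean proof: helper29 (Pool/Agent/H29/EX, Pool/Agent/H29/R2) with modules by helper3, helper4,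
helper5, helper11, helper17, helper19, helper31, helper33, helper35, helper47, helper50, helper54,
helper58, helper60, helper68, helper74, helper81, helper84, helper85, helper89, helper90; helper28
and helper95 (all Artin `L`-functions: Pool/Agent/H28/RC, Pool/Agent/H95/RQ and the modules named
there); helper25 (Pool/Agent/H25/DL, DP, HK).
-/

set_option autoImplicit false

open Complex

namespace Pool.Agent.Results.MP_347b49_nt.BeyondDegreeOne

open Pool.Agent.H25.DL Pool.Agent.H29.R2

/-- `Λ` is the Artin `L`-function of `R`: it is meromorphic on the complex plane and given by the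
Euler product `∏_p det (1 - p^{-s} Frob_p | V^{I_p})^{-1}` for `Re s > 1`. -/
def IsArtinLFunction (R : ArtinRep) (Λ : ℂ → ℂ) : Prop :=
  (∀ s : ℂ, MeromorphicAt Λ s) ∧ ∀ s : ℂ, 1 < s.re → HasProd (fun p => R.euler p s) (Λ s)

/-- the order of `∏ Λ_i(1/2 + a_i (s - 1/2) + i τ_i) ^ c_i` at `s` -/
noncomputable def order {k : ℕ} (Λ : Fin k → ℂ → ℂ) (a τ : Fin k → ℝ) (c : Fin k → ℤ) (s : ℂ) :
    ℤ :=
  ∑ i, c i * (meromorphicOrderAt (Λ i) (1 / 2 + (a i : ℂ) * (s - 1 / 2) + τ i * I)).untop₀

theorem result {k : ℕ} (R : GFam k) (Λ : Fin k → ℂ → ℂ)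
    (hΛ : ∀ i, IsArtinLFunction (R.rep i) (Λ i)) (a τ : Fin k → ℝ) (c : Fin k → ℤ) (r d ε : ℝ)
    (hr : 1 < r) (ha : ∀ i, a i = 1 ∨ a i = r) (hN : R.NonDeg a τ c r)
    (hd : d = ∑ i, (c i : ℝ) * a i * (R.rep i).dim) (hd0 : 0 < d) (hd1 : d < 5 / 2)
    (hd2 : 3 * d < 2 * r + 1) (hd3 : 6 * d < 3 * r + 4) (hε : 0 < ε) :
    ∃ T₀ : ℝ, ∀ T : ℝ, T₀ ≤ T → ∃ Z : Finset ℂ, T ^ (min 1 (5 - 2 * d) - ε) ≤ Z.card ∧
      ∀ z ∈ Z, T ≤ z.im ∧ z.im ≤ 2 * T ∧ order Λ a τ c z < 0 :=
  T_FAB_proved k R Λ a τ c r d ε hΛ hr ha hN hd hd0 hd1 hd2 hd3 hε

end Pool.Agent.Results.MP_347b49_nt.BeyondDegreeOne
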