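import Pool.Agent.H38.AE.Statement
import Pool.Agent.H23.AF.All

/-!
# Few coprime triples with small radical

The number of admissible triples of height at most `N` whose radical is at most `R` and smaller
than the largest entry is `O(N ^ ε * R ^ (4 / 7))`, uniformly in `N` and `R`. So for every
`M ≥ 1` the number of exceptional triples of height at most `N` for the exponent `M` is
`O(N ^ (4 / (7 * M) + ε))`, uniformly in `M`; the trivial exponent is `2 / (3 * M)`.
-/

set_option autoImplicit false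

namespace Pool.Agent.H29.Kept.ExceptionalTriples

open Pool.Agent.H38.AE Pool.Agent.H38.AE.Statement

/-- The admissible triples with all entries at most `N` in absolute value, whose radical is at
most `R` and smaller than some entry. -/
def SmallRadical (N : ℕ) (R : ℝ) : Set (Fin 3 → ℤ) :=
  {x | Admissible x ∧ (∀ i, |x i| ≤ (N : ℤ)) ∧ (radical (∏ i, x i) : ℝ) ≤ R ∧
    ∃ i, (radical (∏ i, x i) : ℝ) < |(x i : ℝ)|}

theorem finite_of_height (N : ℕ) (S : Set (Fin 3 → ℤ)) (h : ∀ x ∈ S, ∀ i, |x i| ≤ (N : ℤ)) :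
    S.Finite := by
  apply Set.Finite.subset (Set.Finite.pi' (fun _ : Fin 3 => Set.finite_Icc (-(N : ℤ)) N))
  intro x hx i
  exact abs_le.mp (h x hx i)

theorem small_le (N : ℕ) (R : ℝ) :
    (SmallRadical N R).ncard ≤ (Pool.Agent.H23.AF.Sm N R).ncard := by
  apply Set.ncard_le_ncard_of_injOn (fun x : Fin 3 → ℤ => (x 0, x 1, x 2)) _ _
    ((Pool.Agent.H31.AE.tri_finite N).subset fun t ht => ht.1)
  · rintro x ⟨⟨h0, hc, hs⟩, hb, hR, i, hi⟩
    rw [Fin.sum_univ_three] at hs
    rw [Fin.prod_univ_three] at hi hR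
    refine ⟨⟨h0 0, h0 1, h0 2, hc 0 1 (by decide), hc 0 2 (by decide), hc 1 2 (by decide), hs,
      hb 0, hb 1, hb 2⟩, hR, ?_⟩
    show (rad (x 0 * x 1 * x 2).natAbs : ℝ) < ((max |x 0| (max |x 1| |x 2|) : ℤ) : ℝ)
    have hle : |x i| ≤ max |x 0| (max |x 1| |x 2|) := by
      fin_cases i
      · exact le_max_left _ _
      · exact (le_max_left _ _).trans (le_max_right _ _)
      · exact (le_max_right _ _).trans (le_max_right _ _)
    have hle' : |(x i : ℝ)| ≤ ((max |x 0| (max |x 1| |x 2|) : ℤ) : ℝ) := by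
      rw [← Int.cast_abs]
      exact_mod_cast hle
    exact lt_of_lt_of_le hi hle'
  · intro x _ y _ hxy
    simp only [Prod.mk.injEq] at hxy
    funext i
    fin_cases i
    · exact hxy.1
    · exact hxy.2.1
    · exact hxy.2.2

theorem exceptional_sub (M : ℝ) (hM : 1 ≤ M) (N : ℕ) :
    Exceptional 3 M N ⊆ SmallRadical N ((N : ℝ) ^ (1 / M)) := by
  rintro x ⟨hx, hb, i, hi⟩
  have hM0 : 0 < M := by linarith
  have hr1 : (1 : ℝ) ≤ (radical (∏ i, x i) : ℝ) := by
    have : 0 < radical (∏ i, x i) := Finset.prod_pos fun p hp => (Nat.prime_of_mem_primeFactors hp).pos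
    exact_mod_cast this
  have hbi : |(x i : ℝ)| ≤ N := by
    rw [← Int.cast_abs]
    exact_mod_cast hb i
  refine ⟨hx, hb, ?_, i, ?_⟩
  · have h1 : ((radical (∏ i, x i) : ℝ) ^ M) ^ (1 / M) ≤ (N : ℝ) ^ (1 / M) :=
      Real.rpow_le_rpow (by positivity) (hi.le.trans hbi) (by positivity)
    rwa [← Real.rpow_mul (by linarith), mul_one_div_cancel hM0.ne', Real.rpow_one] at h1
  · refine lt_of_le_of_lt ?_ hi
    calc (radical (∏ i, x i) : ℝ) = (radical (∏ i, x i) : ℝ) ^ (1 : ℝ) := (Real.rpow_one _).symm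
      _ ≤ (radical (∏ i, x i) : ℝ) ^ M := Real.rpow_le_rpow_of_exponent_le hr1 hM

/-- For every `ε > 0` there is `C > 0` such that for all `N ≥ 1`: (a) for every real `R ≥ 1` at most
`C N ^ ε R ^ (4 / 7)` admissible triples of height at most `N` have a radical that is at most `R`
and smaller than some entry; (b) for every real `M ≥ 1` at most `C N ^ (4 / (7 M) + ε)` admissible
triples of height at most `N` have some entry larger than the `M`-th power of the radical. -/
theorem result (ε : ℝ) (hε : 0 < ε) : ∃ C : ℝ, 0 < C ∧ ∀ N : ℕ, 1 ≤ N →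
    (∀ R : ℝ, 1 ≤ R → (SmallRadical N R).Finite ∧
      ((SmallRadical N R).ncard : ℝ) ≤ C * ((N : ℝ) ^ ε * R ^ ((4 : ℝ) / 7))) ∧
    (∀ M : ℝ, 1 ≤ M → (Exceptional 3 M N).Finite ∧
      ((Exceptional 3 M N).ncard : ℝ) ≤ C * (N : ℝ) ^ (4 / (7 * M) + ε)) := by
  obtain ⟨C, hC, h⟩ := Pool.Agent.H23.AF.pf_all ε hε
  refine ⟨C, hC, fun N hN => ?_⟩
  have hN0 : (0 : ℝ) < N := by exact_mod_cast hN
  have hN1 : (1 : ℝ) ≤ N := by exact_mod_cast hN
  have key : ∀ R : ℝ, 1 ≤ R → (SmallRadical N R).Finite ∧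
      ((SmallRadical N R).ncard : ℝ) ≤ C * ((N : ℝ) ^ ε * R ^ ((4 : ℝ) / 7)) := by
    intro R hR
    refine ⟨finite_of_height N _ fun x hx => hx.2.1, ?_⟩
    have h1 : ((SmallRadical N R).ncard : ℝ) ≤ ((Pool.Agent.H23.AF.Sm N R).ncard : ℝ) := by
      exact_mod_cast small_le N R
    exact h1.trans (h N R hN hR)
  refine ⟨key, fun M hM => ⟨finite_of_height N _ fun x hx => hx.2.1, ?_⟩⟩
  have hM0 : 0 < M := by linarith
  obtain ⟨hf, hk⟩ := key ((N : ℝ) ^ (1 / M)) (Real.one_le_rpow hN1 (by positivity))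
  have h1 : ((Exceptional 3 M N).ncard : ℝ) ≤ ((SmallRadical N ((N : ℝ) ^ (1 / M))).ncard : ℝ) := by
    exact_mod_cast Set.ncard_le_ncard (exceptional_sub M hM N) hf
  refine (h1.trans hk).trans (le_of_eq ?_)
  rw [← Real.rpow_mul hN0.le, ← Real.rpow_add hN0]
  congr 2
  field_simp
  ring

end Pool.Agent.H29.Kept.ExceptionalTriples
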