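import Mathlib
import Pool.Agent.H23.LC.Defs
import Pool.Agent.H23.GLB.Fin2

/-!
# The mean square of the L-functions of all Hecke characters of a number field

For every number field `K` of degree `m`, every nonzero ideal `f` and every `T ≥ 1` let `F` be the
set of all unitary Hecke characters `χ` modulo `f` of `K` with archimedean parameters (frequencies
at all places, angular parameters at the complex places) at most `T`. This set has at least
`c T^(m-1) h_K R_K φ(f)` members (`h_K` the class number, `R_K` the regulator), and the mean value
of `|L(1/2 + it, χ)|²` over `χ ∈ F` and `|t| ≤ T` is at most `C (log(3 + |d_K| N(f) T))^B`, where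
the constants depend on the degree `m` only. This is the Lindelof hypothesis on average, with a
power of the logarithm in place of an arbitrarily small power, in every single number field and
uniformly in the field, the modulus and the size of the archimedean parameters. It holds in the
form of a sum over separated points `t`, which contains the integral over `t` and the maximum
over `t`. The product `T^m h_K R_K φ(f)` has about the size `(|d_K| N(f)^2 T^(2m))^(1/2)`, the
analytic conductors are at most about `|d_K| N(f) T^m`.

Outline of the proof.

* A Hecke character is a character of the group of the idele classes. The dyadic pieces of the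
  Dirichlet series of `L(s, χ)` are unfolded to sums over the points of a fractional ideal in a
  residue class modulo `f`, in a thin region (width `δ = c / T`) of the multiplicative group at
  infinity, which is moved by the torus of the logarithmic space, by the norm and by the angles at
  the complex places. By the inequality of Bessel for the characters of this compact group (and the
  Plancherel formula in `t`), the mean value is at most a mean value of the number of pairs of points
  `x, x'` of an ideal `M` in the thin region with `x - x' ∈ f M`.
* Geometry of numbers and Poisson summation (pairs of lattices and their duals) bound the number of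
  such pairs by values at `1 + κ` of Epstein zeta functions of the lattices of `M`, `f M` and of
  their duals. The mean value of these over the classes and over the torus is a value of the
  Dedekind zeta function at `1 + κ`, and `κ = 1 / log` gives the power of the logarithm.
* The functional equation of `L(s, χ)` is proved with theta series with harmonic polynomials (for
  the angular parameters) for residue classes; its dual side is the Dirichlet series of the finite
  Fourier transform of the character, without primitivity and without Gauss sums. The same
  unfolding and counting apply to the dual pieces. A smooth approximate functional equation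
  combines the two.
-/

set_option autoImplicit false

open NumberField NumberField.InfinitePlace NumberField.Units Complex MeasureTheory

namespace Pool.Agent.Results.MP_52e316_nt.HeckeMeanSquare

open Pool.Agent.H23.LB Pool.Agent.H23.LC

/-- The mean square of the `L`-functions of all Hecke characters with bounded archimedean
parameters modulo `f`, uniformly in the number field, the modulus and the parameters. -/
theorem result (m : ℕ) (hm : 1 ≤ m) :
    ∃ C B c : ℝ, 0 < c ∧ ∀ (K : Type) [Field K] [NumberField K],
      Module.finrank ℚ K = m → ∀ f : Ideal (𝓞 K), f ≠ ⊥ →
      ∃ L : HG K f → ℂ → ℂ,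
        (∀ χ : HG K f, (∀ s : ℂ, 1 < s.re → L χ s = χ.series s) ∧
          (∀ s : ℂ, s ≠ 0 → s ≠ 1 → DifferentiableAt ℂ (L χ) s) ∧
          ((∃ I : Ideal (𝓞 K), χ.ψ I ≠ 0 ∧ χ.ψ I ≠ 1) → Differentiable ℂ (L χ))) ∧
        ∀ T : ℝ, 1 ≤ T →
          (box K f T).Finite ∧
          c * (T ^ (m - 1) * (classNumber K * regulator K * Phi K f)) ≤ (box K f T).ncard ∧
          (∀ P : HG K f → Finset ℝ,
            (∀ χ, ∀ t ∈ P χ, |t| ≤ T ∧ ∀ t' ∈ P χ, t ≠ t' → 1 ≤ |t - t'|) →
            ∑ᶠ χ ∈ box K f T, ∑ t ∈ P χ, ‖L χ (1 / 2 + t * I)‖ ^ 2 ≤
              C * Real.log (3 + |(discr K : ℝ)| * Ideal.absNorm f * T) ^ B *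
                (T ^ m * (classNumber K * regulator K * Phi K f))) ∧
          ∑ᶠ χ ∈ box K f T, ∫ t in (-T)..T, ‖L χ (1 / 2 + t * I)‖ ^ 2 ≤
            C * Real.log (3 + |(discr K : ℝ)| * Ideal.absNorm f * T) ^ B *
              (T ^ m * (classNumber K * regulator K * Phi K f)) ∧
          ∀ V : ℝ, 0 < V →
            ({χ ∈ box K f T | ∃ t : ℝ, |t| ≤ T ∧ V < ‖L χ (1 / 2 + t * I)‖}.ncard : ℝ) ≤
              C * Real.log (3 + |(discr K : ℝ)| * Ideal.absNorm f * T) ^ B *
                (T * (box K f T).ncard) / V ^ 2 ∧
            ∑ᶠ χ ∈ box K f T, (volume {t : ℝ | |t| ≤ T ∧ V < ‖L χ (1 / 2 + t * I)‖}).toReal ≤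
              C * Real.log (3 + |(discr K : ℝ)| * Ideal.absNorm f * T) ^ B *
                (T * (box K f T).ncard) / V ^ 2 :=
  Pool.Agent.H23.GLB.final m hm

end Pool.Agent.Results.MP_52e316_nt.HeckeMeanSquare
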