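import Pool.Agent.H29.DW.Fin
import Pool.Agent.H29.DW.Stmt

/-!
# A hybrid Weyl bound for all Hecke characters, uniform in the number field

Let `K` be a number field of degree `m` and `f = l g k^2`, where `k` is odd, `g` and `k` have the same
prime divisors and `l` is prime to `k` (and `l = 1` if `k = 1`). Let `χ` be a Hecke character modulo
`f`, with arbitrary infinity type `∏_v (a_v / |a_v|)^(k_v) |a_v|^(i e_v ν_v)`, which is primitive at the
primes of `k`. The theorem gives for all real `t`

  `|L(1/2 + it, χ)| ≤ C (|d_K| N(f) C_∞)^ε |d_K|^(1/4) (N(l g) + N(k))^(1/2) C_∞^(1/6)`,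
  `C_∞ = ∏_v (1 + |t - ν_v| + |k_v|)^(e_v)`,

where `C` depends only on `m` and `ε`. For `f = 1` and for `f = k^3` this is the exponent of Weyl in
the whole analytic conductor with the exception of the discriminant, where it is the convexity bound;
the case of the trivial character is `|ζ_K(1/2 + it)| ≤ C |d_K|^(1/4 + ε) (1 + |t|)^(m/6 + ε)`,
uniformly in `K`.

Outline of the proof. The approximate functional equation gives two smooth sums over the ideals. They
are unfolded: multiplied by the Mellin transform of a test function on `K_∞` which is concentrated at
distance `1 / H_v` from `1`, `H_v = (1 + |t - ν_v| + |k_v|)^(1/3)`, and has there the phase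
`exp(-i Re(c_v ((w - 1) - (w - 1)^2 / 2)))`, `c_v = 2 (t - ν_v) + i k_v` (`t - ν_v` for real `v`), the sum
becomes an integral over the positions (logarithmic unit torus, norm, angles) of sums over
the points of a fractional ideal `M`. The inequality of Cauchy and Schwarz is applied over the residue
classes modulo `l g`, the differences `h` lie in `l g M`. Since the phase is quadratic, the product of the
test functions at `x + h` and `x` has a linear phase in `x` (the ambiguity function), so Poisson summation
modulo `k^2` gives complete sums, which are evaluated by `p`-adic stationary phase, and a dual sum over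
the points `y` near to the point `c_v h_v / (2 π e_v)`. The average over the positions turns the
condition that `y` is near to this point into a saving, by a decomposition of the pairs `(h, y)` with
respect to the size of `h` at all places, and leads to the number of pairs in two lattices of
different shapes; these are bounded on average over the positions by the functional equation of the
Dedekind zeta function and `h_K R_K ≤ C |d_K|^(1/2 + ε)`, uniformly in `K`.
-/

set_option autoImplicit false

open NumberField NumberField.InfinitePlace NumberField.Units
  NumberField.Units.dirichletUnitTheorem MeasureTheory Set Filter Complex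

namespace Pool.Agent.Results.MP_52e316_nt.WeylHybrid

open Pool.Agent.H23.LC Pool.Agent.H29.DW

theorem result (m : ℕ) (hm : 1 ≤ m) (ε : ℝ) (hε : 0 < ε) :
    ∃ C : ℝ, ∀ (K : Type) [Field K] [NumberField K], Module.finrank ℚ K = m →
      ∀ l g k : Ideal (𝓞 K), GM K l g k → ∀ χ : HG K (l * (g * k ^ 2)), PrG k χ →
      ∃ L : ℂ → ℂ, IsCon χ L ∧ ∀ t : ℝ, ‖L (1 / 2 + t * I)‖ ≤ C * Cond χ t ^ ε * WB l g k χ t := by
  obtain ⟨C, hC⟩ := Pool.Agent.H29.DW.All.final m hm ε hε
  refine ⟨C, fun K _ _ hK l g k hG χ hP => ?_⟩
  obtain ⟨L, h1, h2, h3, h4⟩ := hC K hK l g k hG χ hP
  exact ⟨L, ⟨h1, h2, h3⟩, h4⟩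

end Pool.Agent.Results.MP_52e316_nt.WeylHybrid
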